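import Pool.Agent.Zk74.FV.Main
import Pool.Agent.Q36.HV.T

/-!
# Adjoint line bundles on complete intersections in vector bundles over toric bundles
-/

set_option autoImplicit false

namespace Pool.Agent.Zk74.FV

open MvPolynomial Q47.TB Q47.FJ

section Gen

variable {E : Type*} [NormedAddCommGroup E] [NormedSpace ℂ E] {I K : Type*} {X : Atlas E I K}
  {ι : Type*} [Fintype ι] {n s q : ℕ} {u : ι → Fin n → ℤ} {S : Set (Set ι)} {c : ι → LB X}
  {Z : Cov X ι s q} {Pic : Subgroup (LB X)} {a b : ℕ}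

theorem adj_semi (hS : IsSmoothFan u S) (hc : ∀ i, c i ∈ Pic) (hX : Adjoint X (· ∈ Pic) a b)
    {κ : LB X} (hκ : IsCanonicalY c κ) {m : ℕ} (hm : n + 1 ≤ m) {d : Fin m → ι → ℤ}
    {A : Fin m → LB X} (hA : ∀ j, A j ∈ Pic) (h : ∀ j, AmpleY u S c (d j) (A j)) {g : ι → ℤ}
    {G : LB X} (hG : G ∈ Pic) (hg : SemiY u S c g G) :
    (a ≤ m → GGY u S c (fun i => ∑ j, d j i + g i - 1) (κ * (∏ j, A j) * G)) ∧
      (n + 2 ≤ m → b ≤ m → VAY u S c (fun i => ∑ j, d j i + g i - 1) (κ * (∏ j, A j) * G)) := by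
  obtain ⟨m, rfl⟩ := Nat.exists_eq_add_of_le' (show 1 ≤ m by omega)
  set d' : Fin (m + 1) → ι → ℤ := Fin.cons (fun i => d 0 i + g i) fun j => d j.succ with hd'
  set A' : Fin (m + 1) → LB X := Fin.cons (A 0 * G) fun j => A j.succ with hA'
  have h1 : ∀ j, A' j ∈ Pic := by
    intro j
    refine Fin.cases ?_ (fun j => ?_) j
    · exact Pic.mul_mem (hA 0) hG
    · exact hA j.succ
  have h2 : ∀ j, AmpleY u S c (d' j) (A' j) := by
    intro j
    refine Fin.cases ?_ (fun j => ?_) j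
    · exact ample_semi hS (h 0) hg
    · exact h j.succ
  have e1 : (fun i => ∑ j, d' j i - 1) = fun i => ∑ j, d j i + g i - 1 := by
    funext i
    rw [Fin.sum_univ_succ, Fin.sum_univ_succ]
    simp only [hd', Fin.cons_zero, Fin.cons_succ]
    ring
  have e2 : κ * ∏ j, A' j = κ * (∏ j, A j) * G := by
    rw [Fin.prod_univ_succ, Fin.prod_univ_succ]
    simp only [hA', Fin.cons_zero, Fin.cons_succ]
    rw [mul_assoc κ]
    congr 1
    rw [mul_assoc, mul_assoc, mul_comm G]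
  constructor
  · intro ha
    have h3 := gg_red hS Pic hc hκ hm h1 h2 fun κ' hκ' B hB => (hX κ' hκ' _ B hB).1 ha
    rwa [e1, e2] at h3
  · intro hn hb
    have h3 := va_red hS Pic hc hκ hn h1 h2 fun κ' hκ' B hB => (hX κ' hκ' _ B hB).2 hb
    rwa [e1, e2] at h3

theorem prod_mem_pic {J : Type*} (T : Finset J) {A : J → LB X} (h : ∀ j, A j ∈ Pic) :
    ∏ j ∈ T, A j ∈ Pic := Pic.prod_mem fun j _ => h j

/-- The adjoint line bundles on `Z`. -/
theorem cov_adj (hS : IsSmoothFan u S) (hc : ∀ i, c i ∈ Pic) (hX : Adjoint X (· ∈ Pic) a b)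
    (hab : a ≤ b) (hZ : IsCov u S c Z (· ∈ Pic)) {κ : LB X} (hκ : IsCanonicalY c κ) {k : ℕ}
    {d : Fin k → ι → ℤ} {M : Fin k → LB X} (hM : ∀ j, M j ∈ Pic)
    (h : ∀ j, AmpleY u S c (d j) (M j)) :
    (n + 1 ≤ k + q → a ≤ k + q → GGZ u S c Z (adjD Z d) (adjM Z κ M)) ∧
      (n + 2 ≤ k + q → b ≤ k + q → VAZ u S c Z (adjD Z d) (adjM Z κ M)) := by
  classical
  set D : Fin (k + q) → ι → ℤ := Fin.append d fun m => Z.e (Sum.inr m) with hD
  set A : Fin (k + q) → LB X := Fin.append M fun m => Z.N (Sum.inr m) with hA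
  have h1 : ∀ j, A j ∈ Pic := by
    intro j
    refine Fin.addCases (fun j => ?_) (fun m => ?_) j
    · rw [hA, Fin.append_left]
      exact hM j
    · rw [hA, Fin.append_right]
      exact hZ.memN _
  have h2 : ∀ j, AmpleY u S c (D j) (A j) := by
    intro j
    refine Fin.addCases (fun j => ?_) (fun m => ?_) j
    · rw [hA, hD, Fin.append_left, Fin.append_left]
      exact h j
    · rw [hA, hD, Fin.append_right, Fin.append_right]
      exact hZ.ample m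
  have hsum : ∀ i, ∑ j, D j i = ∑ j, d j i + ∑ m, Z.e (Sum.inr m) i := fun i => by
    rw [Fin.sum_univ_add]
    simp only [hD, Fin.append_left, Fin.append_right]
  have hprod : ∏ j, A j = (∏ j, M j) * ∏ m, Z.N (Sum.inr m) := by
    rw [Fin.prod_univ_add]
    simp only [hA, Fin.append_left, Fin.append_right]
  -- the first twist
  have hg0 : SemiY u S c (fun i => ∑ l, (Z.e (Sum.inl l) i - Z.b l i))
      (∏ l, (Z.N (Sum.inl l) * (Z.B l)⁻¹)) :=
    semi_sum Finset.univ fun l _ => hZ.semi l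
  have hG0 : ∏ l, (Z.N (Sum.inl l) * (Z.B l)⁻¹) ∈ Pic :=
    prod_mem_pic _ fun l => Pic.mul_mem (hZ.memN _) (Pic.inv_mem (hZ.memB l))
  have hd0 : (fun i => ∑ j, D j i + ∑ l, (Z.e (Sum.inl l) i - Z.b l i) - 1) = adjD Z d := by
    funext i
    rw [hsum, adjD, Fintype.sum_sum_type, Finset.sum_sub_distrib]
    ring
  have hM0 : κ * (∏ j, A j) * ∏ l, (Z.N (Sum.inl l) * (Z.B l)⁻¹) = adjM Z κ M := by
    rw [hprod, adjM, Fintype.prod_sum_type, Finset.prod_mul_distrib, Finset.prod_inv_distrib]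
    generalize ∏ j, M j = x1
    generalize ∏ m, Z.N (Sum.inr m) = x2
    generalize ∏ l, Z.N (Sum.inl l) = x3
    generalize (∏ l, Z.B l)⁻¹ = x4
    rw [← mul_assoc (κ * (x1 * x2)), ← mul_assoc κ x1 x2, mul_assoc (κ * x1) x2 x3,
      mul_comm x2 x3]
  -- the other twists
  have hgl : ∀ l, SemiY u S c (fun i => ∑ l', (Z.e (Sum.inl l') i - Z.b l' i) - Z.b l i)
      ((∏ l', (Z.N (Sum.inl l') * (Z.B l')⁻¹)) * (Z.B l)⁻¹) := by
    intro l
    have h3 := semi_mul (semi_sum (u := u) (S := S) (c := c) (Finset.univ.erase l)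
      (d := fun l' i => Z.e (Sum.inl l') i - Z.b l' i)
      (M := fun l' => Z.N (Sum.inl l') * (Z.B l')⁻¹) fun l' _ => hZ.semi l') (hZ.semi₂ l)
    have e1 : (fun i => ∑ l' ∈ Finset.univ.erase l, (Z.e (Sum.inl l') i - Z.b l' i) +
        (Z.e (Sum.inl l) i - 2 * Z.b l i)) =
        fun i => ∑ l', (Z.e (Sum.inl l') i - Z.b l' i) - Z.b l i := by
      funext i
      rw [← Finset.sum_erase_add _ _ (Finset.mem_univ l)]
      ring
    have e2 : (∏ l' ∈ Finset.univ.erase l, (Z.N (Sum.inl l') * (Z.B l')⁻¹)) *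
        (Z.N (Sum.inl l) * (Z.B l)⁻¹ * (Z.B l)⁻¹) =
        (∏ l', (Z.N (Sum.inl l') * (Z.B l')⁻¹)) * (Z.B l)⁻¹ := by
      rw [← Finset.prod_erase_mul Finset.univ (fun l' => Z.N (Sum.inl l') * (Z.B l')⁻¹)
        (Finset.mem_univ l)]
      exact (mul_assoc _ _ _).symm
    rw [e1, e2] at h3
    exact h3
  refine ⟨fun hn ha => ?_, fun hn hb => ?_⟩
  · have h3 := (adj_semi hS hc hX hκ hn h1 h2 hG0 hg0).1 ha
    rw [hd0, hM0] at h3
    rintro i z x y ⟨hz, hx, -⟩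
    obtain ⟨F, hF, hF0⟩ := h3 i z hz x hx
    exact ⟨_, pull_sec hF, by rwa [eval_pull]⟩
  · have h3 := (adj_semi hS hc hX hκ (by omega) h1 h2 hG0 hg0).2 hn hb
    rw [hd0, hM0] at h3
    refine va_tot h3 fun l => ?_
    have h4 := (adj_semi hS hc hX hκ (by omega) h1 h2
      (Pic.mul_mem hG0 (Pic.inv_mem (hZ.memB l))) (hgl l)).1 (hab.trans hb)
    have e1 : (fun i => ∑ j, D j i + (∑ l', (Z.e (Sum.inl l') i - Z.b l' i) - Z.b l i) - 1) =
        fun i => adjD Z d i - Z.b l i := by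
      funext i
      rw [← hd0]
      ring
    rw [e1, ← mul_assoc, hM0] at h4
    exact h4

theorem adjZ (hab : a ≤ b) (hX : Adjoint X (· ∈ Pic) a b) : AdjointZ X (· ∈ Pic) a b :=
  fun _ _ _ _ _ _ _ hS _ hc _ hκ _ hZ _ _ _ h =>
    cov_adj hS hc hX hab hZ hκ (fun j => (h j).1) fun j => (h j).2

end Gen

section Tor

open Pool.Agent.W594.SYZ2 Pool.Agent.W594.SYZ2.TQ Q36.HV

variable {V : Type} [NormedAddCommGroup V] [NormedSpace ℂ V] [FiniteDimensional ℂ V]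

/-- The group of the line bundles on `V / Γ` which have a Chern form. -/
def picq (Γ : Subgroup (Aff V)) : Subgroup (LB (quo Γ)) := cpicq (toS Γ)

theorem mem_picq {Γ : Subgroup (Aff V)} {M : LB (quo Γ)} :
    M ∈ picq Γ ↔ ∃ H, HasChern M H := Iff.rfl

theorem adjoint_torus {Γ : Subgroup (Aff V)} (hΓ : IsTorusQuotient (toS Γ))
    (hc : Comm (toS Γ)) {ℓ : ℕ} (ht : AreTranslations (alb^[ℓ] (toS Γ))) :
    Adjoint (quo Γ) (fun A => ∃ H, HasChern A H) (ℓ + 2) (ℓ + 3) := fun _ hκ _ _ hA =>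
  main_q hΓ hc ht (canonical_q hΓ hκ) hA

/-- The three cases. -/
theorem adjoint_cases (Γ : Subgroup (Aff V)) (hΓ : IsFreeQuotient Γ) (a : ℕ)
    (h : ((∀ A ∈ parts Γ, ∀ B ∈ parts Γ, A ∘ B = B ∘ A) ∧ ∃ ℓ : ℕ, (fibreSpace Γ)^[ℓ + 1] ⊤ = ⊥ ∧
        (a = ℓ + 2 ∨ (1 ≤ Module.finrank ℂ V ∧ a = Module.finrank ℂ V + 1))) ∨
      ((∃ γ₀ ∈ Γ, ∀ A ∈ parts Γ, ∃ n : ℕ, A = (lp γ₀)^[n]) ∧
        (a = (parts Γ).ncard.primeFactorsList.length + 2 ∨
          (1 ≤ Module.finrank ℂ V ∧ a = Module.finrank ℂ V + 1)))) :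
    Adjoint (quo Γ) (fun A => ∃ H, HasChern A H) a (a + 1) := by
  have hT := torus_of hΓ
  have h1 : Comm (toS Γ) → ∀ ℓ : ℕ, AreTranslations (alb^[ℓ] (toS Γ)) →
      (a = ℓ + 2 ∨ (1 ≤ Module.finrank ℂ V ∧ a = Module.finrank ℂ V + 1)) →
        Adjoint (quo Γ) (fun A => ∃ H, HasChern A H) a (a + 1) := by
    rintro hc ℓ hℓ (rfl | ⟨hV, rfl⟩)
    · exact adjoint_torus hT hc hℓ
    · have h2 := adjoint_torus hT hc (dim_bound ⟨ℓ, hℓ⟩ hV)
      have h3 : Module.finrank ℂ V - 1 + 2 = Module.finrank ℂ V + 1 := by omega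
      have h4 : Module.finrank ℂ V - 1 + 3 = Module.finrank ℂ V + 1 + 1 := by omega
      rwa [h3, h4] at h2
  rcases h with ⟨hc, ℓ, hℓ, ha⟩ | ⟨hcy, ha⟩
  · exact h1 (comm_of hc) ℓ (trans_of hℓ) ha
  · have hcy' := cyclic_of hcy
    rw [← card_parts] at ha
    exact h1 (comm_of_cyclic hcy') _ (cyc_bound _ (toS Γ) hT (free_of hΓ) hcy' le_rfl) ha

theorem adjZ_torus (Γ : Subgroup (Aff V)) {a : ℕ}
    (h : Adjoint (quo Γ) (fun A => ∃ H, HasChern A H) a (a + 1)) :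
    AdjointZ (quo Γ) (fun A => ∃ H, HasChern A H) a (a + 1) :=
  adjZ (X := quo Γ) (Pic := picq Γ) (Nat.le_succ a) h

end Tor

end Pool.Agent.Zk74.FV
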