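import Pool.Agent.Zk74.FV.Adj

/-!
# Cyclic covers
-/

set_option autoImplicit false

namespace Pool.Agent.Zk74.FV

open MvPolynomial Q47.TB Q47.FJ

variable {E : Type*} [NormedAddCommGroup E] [NormedSpace ℂ E] {I K : Type*} {X : Atlas E I K}
  {ι : Type*} [Fintype ι] {n s q : ℕ} {u : ι → Fin n → ℤ} {S : Set (Set ι)} {c : ι → LB X}

theorem diff_joint (hS : IsSmoothFan u S) {d : ι → ℤ} {M : LB X} {F : I → E → MvPolynomial ι ℂ}
    (hF : IsSecY u c d M F) {i : I} {z : E} (hz : z ∈ X.U i) (x : ι → ℂ) :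
    DifferentiableAt ℂ (fun p : E × (ι → ℂ) => eval p.2 (F i p.1)) (z, x) := by
  classical
  set A := (finite_class hS d).toFinset with hA
  have hA' : ∀ α : ι →₀ ℕ, LinEquiv u (fun j => (α j : ℤ)) d → α ∈ A := fun α hα =>
    (finite_class hS d).mem_toFinset.2 hα
  have h7 : ∀ᶠ p : E × (ι → ℂ) in nhds (z, x), p.1 ∈ X.U i :=
    continuousAt_fst.eventually_mem ((X.isOpen_U i).mem_nhds hz)
  have h8 : DifferentiableAt ℂ (fun p : E × (ι → ℂ) => ∑ α ∈ A, coeff α (F i p.1) *
      ∏ j, p.2 j ^ α j) (z, x) := by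
    refine DifferentiableAt.fun_sum fun α _ => DifferentiableAt.mul ?_ ?_
    · have h4 : DifferentiableAt ℂ (fun z => coeff α (F i z)) z :=
        (hF.holo i α).differentiableAt ((X.isOpen_U i).mem_nhds hz)
      exact DifferentiableAt.comp (z, x) (f := fun p : E × (ι → ℂ) => p.1) h4 differentiableAt_fst
    · have h6 : ∀ j, DifferentiableAt ℂ (fun p : E × (ι → ℂ) => p.2 j ^ α j) (z, x) := by
        intro j
        have h5 : DifferentiableAt ℂ (fun p : E × (ι → ℂ) => p.2 j) (z, x) :=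
          ((ContinuousLinearMap.proj (R := ℂ) (φ := fun _ : ι => ℂ) j).comp
            (ContinuousLinearMap.snd ℂ E (ι → ℂ))).differentiableAt
        exact h5.pow _
      have h9 := HasFDerivAt.finsetProd (u := Finset.univ) (x := (z, x))
        (g := fun j (p : E × (ι → ℂ)) => p.2 j ^ α j) fun j _ => (h6 j).hasFDerivAt
      exact h9.differentiableAt
  refine h8.congr_of_eventuallyEq ?_
  filter_upwards [h7] with p hp
  exact eval_sec hF hA' hp _

theorem pow_sec (b : ι → ℤ) (B : LB X) (m₀ : ℕ) (F₀ : I → E → MvPolynomial ι ℂ) (m : ℕ) :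
    IsSecW u c (cyclic b B m₀ F₀) (fun j => m * b j) (B ^ m)
      fun _ _ => MvPolynomial.X (Sum.inr 0) ^ m := by
  induction m with
  | zero =>
    have h1 := pull_sec (Z := cyclic b B m₀ F₀) (one_sec (u := u) (c := c))
    have h2 : (fun j => ((0 : ℕ) : ℤ) * b j) = fun _ => 0 := funext fun j => by simp
    rw [h2, pow_zero]
    simpa using h1
  | succ m ih =>
    have h1 := coord_sec (0 : Fin 1) ih
    have h2 : (fun j => ((m + 1 : ℕ) : ℤ) * b j) = fun j => m * b j + b j := funext fun j => by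
      push_cast
      ring
    have h3 : (fun (_ : I) (_ : E) => (MvPolynomial.X (Sum.inr 0) ^ (m + 1) :
        MvPolynomial (ι ⊕ Fin 1) ℂ)) =
        fun _ _ => MvPolynomial.X (Sum.inr 0) * MvPolynomial.X (Sum.inr 0) ^ m := by
      funext _ _
      rw [pow_succ']
    rw [h2, pow_succ, h3]
    exact h1

/-- Smooth cyclic covers belong to the class. -/
theorem cyclic_cov (hS : IsSmoothFan u S) {Pic : Subgroup (LB X)} {b : ι → ℤ} {B : LB X}
    (hB : B ∈ Pic) (hs : SemiY u S c b B) {m : ℕ} (hm : 2 ≤ m) {F : I → E → MvPolynomial ι ℂ}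
    (hF : IsSecY u c (fun j => m * b j) (B ^ m) F) (hsm : SmoothDiv S X F) :
    IsCov u S c (cyclic b B m F) (· ∈ Pic) where
  memB _ := hB
  memN _ := Pic.pow_mem hB m
  sec r := by
    have h1 := comb_sec (pow_sec (u := u) (c := c) b B m F m) (pull_sec hF) 1 1
    simp only [map_one, one_mul] at h1
    exact h1
  smooth := by
    rintro i z x y ⟨hz, hx, hP⟩
    have hsub : Subsingleton (Fin 1 ⊕ Fin 0) :=
      ⟨fun r r' => by
        rcases r with r | r
        · rcases r' with r' | r'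
          · rw [Subsingleton.elim r r']
          · exact r'.elim0
        · exact r.elim0⟩
    refine LinearIndependent.of_subsingleton (Sum.inl 0) fun h0 => ?_
    have hev : (fun p : E × (ι ⊕ Fin 1 → ℂ) => eval p.2 ((cyclic b B m F).P (Sum.inl 0) i p.1)) =
        fun p => p.2 (Sum.inr 0) ^ m - eval (fun j => p.2 (Sum.inl j)) (F i p.1) := by
      funext p
      simp only [cyclic, map_sub, map_pow, eval_X]
      rw [eval_rename]
      rfl
    rw [hev] at h0
    have hy0 : HasFDerivAt (fun p : E × (ι ⊕ Fin 1 → ℂ) => p.2 (Sum.inr 0))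
        ((ContinuousLinearMap.proj (Sum.inr 0)).comp (ContinuousLinearMap.snd ℂ E (ι ⊕ Fin 1 → ℂ)))
        (z, Sum.elim x y) :=
      ((ContinuousLinearMap.proj (Sum.inr 0)).comp
        (ContinuousLinearMap.snd ℂ E (ι ⊕ Fin 1 → ℂ))).hasFDerivAt
    set Lm : E × (ι ⊕ Fin 1 → ℂ) →L[ℂ] E × (ι → ℂ) :=
      (ContinuousLinearMap.fst ℂ E (ι ⊕ Fin 1 → ℂ)).prod
        ((ContinuousLinearMap.pi fun j => ContinuousLinearMap.proj (Sum.inl j)).comp
          (ContinuousLinearMap.snd ℂ E (ι ⊕ Fin 1 → ℂ))) with hLm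
    have hg := (diff_joint hS hF hz x).hasFDerivAt
    have hLz : Lm (z, Sum.elim x y) = (z, x) := rfl
    have hG : HasFDerivAt (fun p : E × (ι ⊕ Fin 1 → ℂ) => eval (fun j => p.2 (Sum.inl j))
        (F i p.1)) ((fderiv ℂ (fun p : E × (ι → ℂ) => eval p.2 (F i p.1)) (z, x)).comp Lm)
        (z, Sum.elim x y) := by
      rw [← hLz] at hg
      have h3 := hg.comp (z, Sum.elim x y) Lm.hasFDerivAt
      rw [hLz] at h3
      exact h3
    have hd := (hy0.pow m).fun_sub hG
    rw [hd.fderiv] at h0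
    have hyr : eval (Sum.elim x y) ((cyclic b B m F).P (Sum.inl 0) i z) = 0 := hP (Sum.inl 0)
    have hyr' : y 0 ^ m - eval x (F i z) = 0 := by
      have h4 := congrFun hev (z, Sum.elim x y)
      simp only at h4
      rw [← hyr, h4]
      rfl
    -- the direction of `y`
    have h5 := DFunLike.congr_fun h0 ((0 : E), (Sum.elim (0 : ι → ℂ) (fun _ => 1) :
      ι ⊕ Fin 1 → ℂ))
    have h6 : Lm ((0 : E), (Sum.elim (0 : ι → ℂ) (fun _ => 1) : ι ⊕ Fin 1 → ℂ)) = 0 := rfl
    simp only [ContinuousLinearMap.sub_apply, ContinuousLinearMap.comp_apply, h6, map_zero,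
      sub_zero, ContinuousLinearMap.zero_apply] at h5
    have h7 : (m : ℂ) * y 0 ^ (m - 1) = 0 := by
      simpa using h5
    have hm0 : (m : ℂ) ≠ 0 := by
      have : m ≠ 0 := by omega
      exact_mod_cast this
    have hy : y 0 = 0 := by
      have h8 := (mul_eq_zero.1 h7).resolve_left hm0
      exact pow_eq_zero_iff (by omega) |>.1 h8
    have hF0 : eval x (F i z) = 0 := by
      rw [hy, zero_pow (by omega), zero_sub, neg_eq_zero] at hyr'
      exact hyr'
    refine hsm i z hz x hx hF0 ?_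
    refine ContinuousLinearMap.ext fun v => ?_
    have h9 := DFunLike.congr_fun h0 (v.1, (Sum.elim v.2 (fun _ => 0) : ι ⊕ Fin 1 → ℂ))
    have h10 : Lm (v.1, (Sum.elim v.2 (fun _ => 0) : ι ⊕ Fin 1 → ℂ)) = v := rfl
    simp only [ContinuousLinearMap.sub_apply, ContinuousLinearMap.comp_apply, h10,
      ContinuousLinearMap.zero_apply] at h9
    have h11 : fderiv ℂ (fun p : E × (ι → ℂ) => eval p.2 (F i p.1)) (z, x) v = 0 := by
      simpa using h9
    exact h11
  semi _ := by
    obtain ⟨a, ha, h⟩ := hs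
    obtain ⟨m, rfl⟩ := Nat.exists_eq_add_of_le' hm
    refine ⟨a, ha, ?_⟩
    have h1 := gg_pow h (m + 1)
    have e1 : (fun l => (a : ℤ) * (((m + 2 : ℕ) : ℤ) * b l - b l)) =
        fun j => ((m + 1 : ℕ) : ℤ) * (a * b j) := funext fun j => by
      push_cast
      ring
    have e2 : (B ^ (m + 2) * B⁻¹) ^ a = (B ^ a) ^ (m + 1) := by
      rw [pow_succ, mul_inv_cancel_right, ← pow_mul, ← pow_mul, mul_comm]
    change GGY u S c (fun l => (a : ℤ) * (((m + 2 : ℕ) : ℤ) * b l - b l)) _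
    rw [e1]
    change GGY u S c _ ((B ^ (m + 2) * B⁻¹) ^ a)
    rw [e2]
    exact h1
  semi₂ _ := by
    obtain ⟨a, ha, h⟩ := hs
    obtain ⟨m, rfl⟩ := Nat.exists_eq_add_of_le' hm
    refine ⟨a, ha, ?_⟩
    have h1 := gg_pow h m
    have e1 : (fun l => (a : ℤ) * (((m + 2 : ℕ) : ℤ) * b l - 2 * b l)) =
        fun j => (m : ℤ) * (a * b j) := funext fun j => by
      push_cast
      ring
    have e2 : (B ^ (m + 2) * B⁻¹ * B⁻¹) ^ a = (B ^ a) ^ m := by
      rw [pow_succ, mul_inv_cancel_right, pow_succ, mul_inv_cancel_right, ← pow_mul, ← pow_mul,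
        mul_comm]
    change GGY u S c (fun l => (a : ℤ) * (((m + 2 : ℕ) : ℤ) * b l - 2 * b l)) _
    rw [e1]
    change GGY u S c _ ((B ^ (m + 2) * B⁻¹ * B⁻¹) ^ a)
    rw [e2]
    exact h1
  ample m := m.elim0

end Pool.Agent.Zk74.FV
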