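import Pool.Agent.Q47.FJ.DefsT

/-!
# Complete intersections in the total spaces of vector bundles over toric bundles: definitions

`Y → X` is a toric bundle (see `Pool.Agent.Q47.FJ.Defs`), given by the fan `u`, `S` and by the line
bundles `c i` on the complex manifold `X`. `W` is the total space of the vector bundle
`B_1 ⊕ … ⊕ B_s` on `Y`, `B_l = O_Y(b l; B l)`. Its points are given by `(z, x, y)`, `z` a point of a
chart of `X`, `x` the Cox coordinates, `y ∈ ℂ^s` the coordinates in the fibre.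
-/

set_option autoImplicit false

namespace Pool.Agent.Zk74.FV

open MvPolynomial Q47.TB Q47.FJ

variable {E : Type*} [NormedAddCommGroup E] [NormedSpace ℂ E] {I K : Type*} {X : Atlas E I K}
  {ι : Type*} [Fintype ι] {n s q : ℕ}

/-- The line bundle `O_Y(d; M)` is semiample: some power of it is globally generated. -/
def SemiY (u : ι → Fin n → ℤ) (S : Set (Set ι)) (c : ι → LB X) (d : ι → ℤ) (M : LB X) : Prop :=
  ∃ N : ℕ, 1 ≤ N ∧ GGY u S c (fun l => N * d l) (M ^ N)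

/-- The vector bundle `B_1 ⊕ … ⊕ B_s`, `B_l = O_Y(b l; B l)`, and `s + q` polynomials `P r` in the Cox
coordinates and the coordinates of the fibre, belonging to the line bundles `O_Y(e r; N r)`. -/
structure Cov (X : Atlas E I K) (ι : Type*) (s q : ℕ) where
  b : Fin s → ι → ℤ
  B : Fin s → LB X
  e : Fin s ⊕ Fin q → ι → ℤ
  N : Fin s ⊕ Fin q → LB X
  P : Fin s ⊕ Fin q → I → E → MvPolynomial (ι ⊕ Fin s) ℂ

variable (u : ι → Fin n → ℤ) (S : Set (Set ι)) (c : ι → LB X) (Z : Cov X ι s q)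

/-- `F` is a section of the pullback of `O_Y(d; M)` to `W`: a polynomial in `x` and `y` with
holomorphic coefficients, with the right weights. -/
structure IsSecW (d : ι → ℤ) (M : LB X) (F : I → E → MvPolynomial (ι ⊕ Fin s) ℂ) : Prop where
  holo : ∀ i α, DifferentiableOn ℂ (fun z => coeff α (F i z)) (X.U i)
  deg : ∀ i, ∀ z ∈ X.U i, ∀ α ∈ (F i z).support,
    LinEquiv u (fun j => (α (Sum.inl j) : ℤ) + ∑ l, (α (Sum.inr l) : ℤ) * Z.b l j) d
  eq : ∀ k, ∀ z ∈ X.D k, ∀ (x : ι → ℂ) (y : Fin s → ℂ),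
    eval (Sum.elim (fun j => ev (c j) k z * x j) fun l => ev (Z.B l) k z * y l)
      (F (X.t k) (X.φ k z)) = ev M k z * eval (Sum.elim x y) (F (X.s k) z)

/-- The points `(z, x, y)` over the chart `i` and `(z', x', y')` over the chart `i'` are the same
point of `W`. -/
def SameW (i : I) (z : E) (x : ι → ℂ) (y : Fin s → ℂ) (i' : I) (z' : E) (x' : ι → ℂ)
    (y' : Fin s → ℂ) : Prop :=
  ∃ k, X.s k = i ∧ X.t k = i' ∧ z ∈ X.D k ∧ X.φ k z = z' ∧ ∃ t : ι → ℂˣ,
    (∀ j, ∏ l, t l ^ u l j = 1) ∧ (∀ l, x' l = t l * (ev (c l) k z * x l)) ∧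
      ∀ l, y' l = ((∏ j, t j ^ Z.b l j : ℂˣ) : ℂ) * (ev (Z.B l) k z * y l)

/-- The vector `(w, ξ, η)` at `(z, x, y)` is zero as a tangent vector of `W`. -/
def ZeroW (x : ι → ℂ) (y : Fin s → ℂ) (w : E) (ξ : ι → ℂ) (η : Fin s → ℂ) : Prop :=
  w = 0 ∧ ∃ τ : ι → ℂ, (∀ j, ∑ l, τ l * u l j = 0) ∧ (∀ l, ξ l = τ l * x l) ∧
    ∀ l, η l = (∑ j, τ j * Z.b l j) * y l

/-- The derivative of `F` at the point `(z, x, y)` in the direction `(w, ξ, η)`. -/
noncomputable def dW (F : I → E → MvPolynomial (ι ⊕ Fin s) ℂ) (i : I) (z : E) (x : ι → ℂ)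
    (y : Fin s → ℂ) (w : E) (ξ : ι → ℂ) (η : Fin s → ℂ) : ℂ :=
  deriv (fun τ : ℂ => eval (Sum.elim (x + τ • ξ) (y + τ • η)) (F i (z + τ • w))) 0

/-- `(z, x, y)` over the chart `i` is a point of the subspace `Z = {P_1 = … = P_(s+q) = 0}` of `W`. -/
def OnZ (i : I) (z : E) (x : ι → ℂ) (y : Fin s → ℂ) : Prop :=
  z ∈ X.U i ∧ {l | x l = 0} ∈ S ∧ ∀ r, eval (Sum.elim x y) (Z.P r i z) = 0

/-- `Z` is a complete intersection of the type considered: the `P r` are sections of `O_Y(e r; N r)`,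
their differentials are linearly independent at all points of `Z`; for `l ≤ s` the line bundles
`O_Y(e l; N l) - B_l` and `O_Y(e l; N l) - 2 B_l` are semiample, and the `q` line bundles
`O_Y(e r; N r)` with `r > s` are ample. All line bundles on `X` have the property `C`. -/
structure IsCov (C : LB X → Prop) : Prop where
  memB : ∀ l, C (Z.B l)
  memN : ∀ r, C (Z.N r)
  sec : ∀ r, IsSecW u c Z (Z.e r) (Z.N r) (Z.P r)
  smooth : ∀ i z x y, OnZ S Z i z x y → LinearIndependent ℂ fun r =>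
    fderiv ℂ (fun p : E × (ι ⊕ Fin s → ℂ) => eval p.2 (Z.P r i p.1)) (z, Sum.elim x y)
  semi : ∀ l, SemiY u S c (fun j => Z.e (Sum.inl l) j - Z.b l j) (Z.N (Sum.inl l) * (Z.B l)⁻¹)
  semi₂ : ∀ l, SemiY u S c (fun j => Z.e (Sum.inl l) j - 2 * Z.b l j)
    (Z.N (Sum.inl l) * (Z.B l)⁻¹ * (Z.B l)⁻¹)
  ample : ∀ m, AmpleY u S c (Z.e (Sum.inr m)) (Z.N (Sum.inr m))

/-- The restriction of `O_Y(d; M)` to `Z` is globally generated. -/
def GGZ (d : ι → ℤ) (M : LB X) : Prop :=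
  ∀ i z x y, OnZ S Z i z x y → ∃ F, IsSecW u c Z d M F ∧ eval (Sum.elim x y) (F i z) ≠ 0

/-- The restriction of `O_Y(d; M)` to `Z` is very ample: its sections have no common zero, separate
points and tangent vectors of `Z`. -/
structure VAZ (d : ι → ℤ) (M : LB X) : Prop where
  gg : GGZ u S c Z d M
  pts : ∀ i z x y, OnZ S Z i z x y → ∀ i' z' x' y', OnZ S Z i' z' x' y' →
    (∀ F, IsSecW u c Z d M F → eval (Sum.elim x y) (F i z) = 0 →
      eval (Sum.elim x' y') (F i' z') = 0) → SameW u c Z i z x y i' z' x' y'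
  tan : ∀ i z x y, OnZ S Z i z x y → ∀ (w : E) (ξ : ι → ℂ) (η : Fin s → ℂ),
    (∀ r, dW (Z.P r) i z x y w ξ η = 0) →
    (∀ F, IsSecW u c Z d M F → eval (Sum.elim x y) (F i z) = 0 → dW F i z x y w ξ η = 0) →
      ZeroW u Z x y w ξ η

/-- The adjunction formula: if `K_Y = O_Y(-1; κ)` then `K_Z + L_1 + … + L_k`, `L_j = O_Y(d j; M j)`,
is the restriction of `O_Y(adjD; adjM)`, the line bundle
`K_Y + ∑ O_Y(e r; N r) - ∑ B_l + ∑ L_j`. -/
def adjD {k : ℕ} (d : Fin k → ι → ℤ) (j : ι) : ℤ :=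
  ∑ m, d m j + ∑ r, Z.e r j - ∑ l, Z.b l j - 1

/-- See `adjD`. -/
noncomputable def adjM {k : ℕ} (κ : LB X) (M : Fin k → LB X) : LB X :=
  κ * (∏ m, M m) * (∏ r, Z.N r) * (∏ l, Z.B l)⁻¹

/-- The cyclic cover `y ^ m = F` of `Y`, where `F` is a section of `m B`, `B = O_Y(b; B)`. -/
noncomputable def cyclic (b : ι → ℤ) (B : LB X) (m : ℕ) (F : I → E → MvPolynomial ι ℂ) :
    Cov X ι 1 0 where
  b _ := b
  B _ := B
  e _ j := m * b j
  N _ := B ^ m
  P _ i z := MvPolynomial.X (Sum.inr 0) ^ m - rename Sum.inl (F i z)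

/-- The divisor `F = 0` on `Y` is smooth (or empty). -/
def SmoothDiv (S : Set (Set ι)) (X : Atlas E I K) (F : I → E → MvPolynomial ι ℂ) : Prop :=
  ∀ i, ∀ z ∈ X.U i, ∀ x : ι → ℂ, {l | x l = 0} ∈ S → eval x (F i z) = 0 →
    fderiv ℂ (fun p : E × (ι → ℂ) => eval p.2 (F i p.1)) (z, x) ≠ 0

/-- For all ample line bundles `A_1, …, A_m` on `X` with the property `C`, `K_X + A_1 + … + A_m` is
globally generated if `m ≥ a` and very ample if `m ≥ b`. -/
def Adjoint (X : Atlas E I K) (C : LB X → Prop) (a b : ℕ) : Prop :=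
  ∀ κ : LB X, IsCanonical κ → ∀ (m : ℕ) (A : Fin m → LB X), (∀ j, C (A j) ∧ IsAmple (A j)) →
    (a ≤ m → GG (κ * ∏ j, A j)) ∧ (b ≤ m → VA (κ * ∏ j, A j))

/-- For all toric bundles `Y → X` with a smooth complete fan of any dimension `n`, all the complete
intersections `Z` (`IsCov`) in the total spaces of `B_1 ⊕ … ⊕ B_s`, given by `s + q` equations, and all
ample line bundles `L_1, …, L_k` on `Y`, the line bundle `K_Z + L_1 + … + L_k` is globally generated
if `k + q ≥ max(a, n + 1)` and very ample if `k + q ≥ max(b, n + 2)`. -/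
def AdjointZ (X : Atlas E I K) (C : LB X → Prop) (a b : ℕ) : Prop :=
  ∀ (ι : Type) [Fintype ι] (n s q : ℕ) (u : ι → Fin n → ℤ) (S : Set (Set ι)), IsSmoothFan u S →
    ∀ c : ι → LB X, (∀ i, C (c i)) → ∀ κ : LB X, IsCanonicalY c κ →
    ∀ Z : Cov X ι s q, IsCov u S c Z C →
    ∀ (k : ℕ) (d : Fin k → ι → ℤ) (M : Fin k → LB X), (∀ j, C (M j) ∧ AmpleY u S c (d j) (M j)) →
      (n + 1 ≤ k + q → a ≤ k + q → GGZ u S c Z (adjD Z d) (adjM Z κ M)) ∧
      (n + 2 ≤ k + q → b ≤ k + q → VAZ u S c Z (adjD Z d) (adjM Z κ M))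

end Pool.Agent.Zk74.FV
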