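import Pool.Agent.Zk74.FV.Sec

/-!
# Very ampleness on complete intersections in vector bundles over toric bundles
-/

set_option autoImplicit false

namespace Pool.Agent.Zk74.FV

open MvPolynomial Q47.TB Q47.FJ

variable {E : Type*} [NormedAddCommGroup E] [NormedSpace ℂ E] {I K : Type*} {X : Atlas E I K}
  {ι : Type*} [Fintype ι] {n s q : ℕ} {u : ι → Fin n → ℤ} {S : Set (Set ι)} {c : ι → LB X}
  {Z : Cov X ι s q}

/-- The sections pulled back from `Y`. -/
theorem pull_sec {d : ι → ℤ} {M : LB X} {F : I → E → MvPolynomial ι ℂ} (hF : IsSecY u c d M F) :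
    IsSecW u c Z d M fun i z => rename Sum.inl (F i z) where
  holo i α := by
    classical
    by_cases h : ∃ β : ι →₀ ℕ, β.mapDomain Sum.inl = α
    · obtain ⟨β, rfl⟩ := h
      simp only [coeff_rename_mapDomain _ Sum.inl_injective]
      exact hF.holo i β
    · have h1 : ∀ z, coeff α (rename (Sum.inl : ι → ι ⊕ Fin s) (F i z)) = 0 := fun z =>
        coeff_rename_eq_zero _ _ _ fun β hβ => absurd ⟨β, hβ⟩ h
      simp only [h1]
      exact differentiableOn_const _
  deg i z hz α hα := by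
    classical
    rw [support_rename_of_injective Sum.inl_injective, Finset.mem_image] at hα
    obtain ⟨β, hβ, rfl⟩ := hα
    have h1 := hF.deg i z hz β hβ
    have h2 : (fun j => ((Finsupp.mapDomain (Sum.inl : ι → ι ⊕ Fin s) β (Sum.inl j) : ℕ) : ℤ) +
        ∑ l, ((Finsupp.mapDomain (Sum.inl : ι → ι ⊕ Fin s) β (Sum.inr l) : ℕ) : ℤ) * Z.b l j) =
        fun j => (β j : ℤ) := by
      funext j
      rw [Finsupp.mapDomain_apply Sum.inl_injective, Finset.sum_eq_zero, add_zero]
      intro l _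
      rw [Finsupp.mapDomain_notin_range, Nat.cast_zero, zero_mul]
      rintro ⟨a, ha⟩
      exact absurd ha Sum.inl_ne_inr
    rw [h2]
    exact h1
  eq k z hz x y := by
    rw [eval_rename, eval_rename]
    exact hF.eq k z hz x

theorem eval_pull (F : MvPolynomial ι ℂ) (x : ι → ℂ) (y : Fin s → ℂ) :
    eval (Sum.elim x y) (rename Sum.inl F) = eval x F := by
  rw [eval_rename]
  rfl

/-- The product of a section and of a fibre coordinate. -/
theorem coord_sec (l : Fin s) {d : ι → ℤ} {M : LB X} {F : I → E → MvPolynomial (ι ⊕ Fin s) ℂ}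
    (hF : IsSecW u c Z d M F) :
    IsSecW u c Z (fun j => d j + Z.b l j) (M * Z.B l) fun i z => MvPolynomial.X (Sum.inr l) * F i z where
  holo i α := by
    classical
    simp only [coeff_X_mul']
    by_cases h : Sum.inr l ∈ α.support
    · simp only [if_pos h]
      exact hF.holo i _
    · simp only [if_neg h]
      exact differentiableOn_const _
  deg i z hz α hα := by
    classical
    rw [support_X_mul, Finset.mem_map] at hα
    obtain ⟨β, hβ, rfl⟩ := hα
    obtain ⟨m, hm⟩ := hF.deg i z hz β hβ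
    refine ⟨m, fun j => ?_⟩
    have h1 := hm j
    simp only [addLeftEmbedding_apply, Finsupp.coe_add, Pi.add_apply, Nat.cast_add, add_mul,
      Finset.sum_add_distrib] at h1 ⊢
    have h2 : ((Finsupp.single (Sum.inr l : ι ⊕ Fin s) 1 : ι ⊕ Fin s →₀ ℕ) (Sum.inl j)) = 0 :=
      Finsupp.single_eq_of_ne Sum.inl_ne_inr
    have h3 : ∑ l', (((Finsupp.single (Sum.inr l : ι ⊕ Fin s) 1 : ι ⊕ Fin s →₀ ℕ)
        (Sum.inr l') : ℕ) : ℤ) * Z.b l' j = Z.b l j := by
      rw [Finset.sum_eq_single l]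
      · rw [Finsupp.single_eq_same, Nat.cast_one, one_mul]
      · intro l' _ hl
        rw [Finsupp.single_eq_of_ne (fun h => hl (Sum.inr_injective h)), Nat.cast_zero, zero_mul]
      · exact fun h => absurd (Finset.mem_univ l) h
    rw [h2, h3]
    linear_combination h1
  eq k z hz x y := by
    simp only [map_mul, eval_X, Sum.elim_inr]
    rw [hF.eq k z hz x y, ev_mul]
    ring

theorem comb_sec {d : ι → ℤ} {M : LB X} {F G : I → E → MvPolynomial (ι ⊕ Fin s) ℂ}
    (hF : IsSecW u c Z d M F) (hG : IsSecW u c Z d M G) (a b : ℂ) :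
    IsSecW u c Z d M fun i z => C a * F i z - C b * G i z where
  holo i α := by
    simp only [coeff_sub, coeff_C_mul]
    exact ((hF.holo i α).const_mul a).sub ((hG.holo i α).const_mul b)
  deg i z hz α hα := by
    classical
    rw [mem_support_iff, coeff_sub, coeff_C_mul, coeff_C_mul] at hα
    by_cases h : coeff α (F i z) = 0
    · refine hG.deg i z hz α (mem_support_iff.2 fun h' => hα ?_)
      rw [h, h', mul_zero, mul_zero, sub_zero]
    · exact hF.deg i z hz α (mem_support_iff.2 h)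
  eq k z hz x y := by
    simp only [map_sub, map_mul, eval_C]
    rw [hF.eq k z hz x y, hG.eq k z hz x y]
    ring

/-- The action of the group on the sections. -/
theorem eval_act {d : ι → ℤ} {p : MvPolynomial (ι ⊕ Fin s) ℂ}
    (hp : ∀ α ∈ p.support,
      LinEquiv u (fun j => (α (Sum.inl j) : ℤ) + ∑ l, (α (Sum.inr l) : ℤ) * Z.b l j) d)
    {t : ι → ℂˣ} (ht : ∀ j, ∏ l, t l ^ u l j = 1) (x : ι → ℂ) (y : Fin s → ℂ) :
    eval (Sum.elim (fun l => t l * x l) fun l => ((∏ j, t j ^ Z.b l j : ℂˣ) : ℂ) * y l) p =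
      ((∏ j, t j ^ d j : ℂˣ) : ℂ) * eval (Sum.elim x y) p := by
  classical
  rw [eval_eq', eval_eq', Finset.mul_sum]
  refine Finset.sum_congr rfl fun α hα => ?_
  obtain ⟨m, hm⟩ := hp α hα
  have h1 : (∏ j, t j ^ (α (Sum.inl j) : ℤ)) * ∏ l, (∏ j, t j ^ Z.b l j) ^ α (Sum.inr l) =
      ∏ j, t j ^ d j := by
    have h2 : ∀ l, (∏ j, t j ^ Z.b l j) ^ α (Sum.inr l) =
        ∏ j, t j ^ ((α (Sum.inr l) : ℤ) * Z.b l j) := fun l => by
      rw [← Finset.prod_pow]
      refine Finset.prod_congr rfl fun j _ => ?_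
      rw [mul_comm, zpow_mul, zpow_natCast]
    simp only [h2]
    rw [Finset.prod_comm, ← Finset.prod_mul_distrib]
    have h3 : ∀ j, t j ^ (α (Sum.inl j) : ℤ) * ∏ l, t j ^ ((α (Sum.inr l) : ℤ) * Z.b l j) =
        t j ^ d j * ∏ k, (t j ^ u j k) ^ m k := fun j => by
      rw [prod_zpow_sum, ← zpow_add]
      have h4 := hm j
      simp only at h4
      rw [h4, zpow_add, ← prod_zpow_sum]
      congr 1
      exact Finset.prod_congr rfl fun k _ => by rw [mul_comm, zpow_mul]
    simp only [h3]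
    rw [Finset.prod_mul_distrib, Finset.prod_comm]
    have h5 : ∀ k, ∏ j, (t j ^ u j k) ^ m k = 1 := fun k => by
      rw [Finset.prod_zpow, ht k, one_zpow]
    simp only [h5, Finset.prod_const_one, mul_one]
  have h2 : ((∏ j, t j ^ (α (Sum.inl j) : ℤ) : ℂˣ) : ℂ) *
      ((∏ l, (∏ j, t j ^ Z.b l j) ^ α (Sum.inr l) : ℂˣ) : ℂ) = ((∏ j, t j ^ d j : ℂˣ) : ℂ) := by
    rw [← h1, Units.val_mul]
  rw [← h2, Fintype.prod_sum_type, Fintype.prod_sum_type]
  simp only [Sum.elim_inl, Sum.elim_inr, mul_pow, Finset.prod_mul_distrib, Units.coe_prod,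
    zpow_natCast, Units.val_pow_eq_pow_val]
  ring

/-- Euler's formula. -/
theorem euler {d : ι → ℤ} {p : MvPolynomial ι ℂ}
    (hp : ∀ α ∈ p.support, LinEquiv u (fun j => (α j : ℤ)) d) {τ : ι → ℂ}
    (hτ : ∀ j, ∑ l, τ l * u l j = 0) (x : ι → ℂ) :
    ∑ l, (τ l * x l) * eval x (pderiv l p) = (∑ j, τ j * d j) * eval x p := by
  classical
  have h0 : ∀ l, x l * eval x (pderiv l p) =
      ∑ α ∈ p.support, (α l : ℂ) * (coeff α p * ∏ i, x i ^ α i) := fun l => by
    conv_lhs => rw [p.as_sum]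
    rw [map_sum, map_sum, Finset.mul_sum]
    refine Finset.sum_congr rfl fun α _ => ?_
    have h1 := congrArg (eval x) (X_mul_pderiv_monomial (i := l) (m := α) (r := coeff α p))
    rw [map_mul, eval_X] at h1
    rw [h1, map_nsmul, eval_monomial, nsmul_eq_mul, Finsupp.prod_fintype _ _ fun i => pow_zero _]
  have h1 : ∑ l, (τ l * x l) * eval x (pderiv l p) =
      ∑ α ∈ p.support, (∑ l, τ l * (α l : ℂ)) * (coeff α p * ∏ i, x i ^ α i) := by
    have h2 : ∀ l, (τ l * x l) * eval x (pderiv l p) =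
        ∑ α ∈ p.support, τ l * (α l : ℂ) * (coeff α p * ∏ i, x i ^ α i) := fun l => by
      rw [mul_assoc, h0 l, Finset.mul_sum]
      exact Finset.sum_congr rfl fun α _ => by ring
    simp only [h2]
    rw [Finset.sum_comm]
    exact Finset.sum_congr rfl fun α _ => by rw [Finset.sum_mul]
  rw [h1, eval_eq', Finset.mul_sum]
  refine Finset.sum_congr rfl fun α hα => ?_
  obtain ⟨m, hm⟩ := hp α hα
  congr 1
  have h3 : ∀ l, (α l : ℂ) = d l + ∑ k, (m k : ℂ) * u l k := fun l => by
    have := hm l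
    simp only at this
    exact_mod_cast this
  simp only [h3, mul_add, Finset.sum_add_distrib]
  have h4 : ∑ l, τ l * ∑ k, (m k : ℂ) * (u l k : ℂ) = 0 := by
    simp_rw [Finset.mul_sum]
    rw [Finset.sum_comm]
    refine Finset.sum_eq_zero fun k _ => ?_
    rw [← mul_zero (m k : ℂ), ← hτ k, Finset.mul_sum]
    exact Finset.sum_congr rfl fun l _ => by ring
  rw [h4, add_zero]

/-- Separation on the total space. -/
theorem va_tot {d : ι → ℤ} {M : LB X} (h0 : VAY u S c d M)
    (hl : ∀ l, GGY u S c (fun j => d j - Z.b l j) (M * (Z.B l)⁻¹)) : VAZ u S c Z d M := by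
  have hgg : GGZ u S c Z d M := by
    rintro i z x y ⟨hz, hx, -⟩
    obtain ⟨F, hF, hF0⟩ := h0.gg i z hz x hx
    exact ⟨_, pull_sec hF, by rwa [eval_pull]⟩
  -- the sections `y_l F`
  have hyl : ∀ l, ∀ F, IsSecY u c (fun j => d j - Z.b l j) (M * (Z.B l)⁻¹) F →
      IsSecW u c Z d M fun i z => MvPolynomial.X (Sum.inr l) * rename Sum.inl (F i z) := fun l F hF => by
    have h1 := coord_sec (Z := Z) l (pull_sec (Z := Z) hF)
    have h2 : (fun j => d j - Z.b l j + Z.b l j) = d := funext fun j => by ring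
    rw [h2, inv_mul_cancel_right] at h1
    exact h1
  refine ⟨hgg, ?_, ?_⟩
  · rintro i z x y ⟨hz, hx, -⟩ i' z' x' y' ⟨hz', hx', -⟩ H
    obtain ⟨k, hs, ht, hzk, hφ, t, ht1, ht2⟩ := h0.pts i z hz x hx i' z' hz' x' hx'
      fun F hF hF0 => by
        have h1 := H _ (pull_sec (Z := Z) hF) (by rwa [eval_pull])
        rwa [eval_pull] at h1
    refine ⟨k, hs, ht, hzk, hφ, t, ht1, ht2, fun l => ?_⟩
    set yt : Fin s → ℂ := fun l => ((∏ j, t j ^ Z.b l j : ℂˣ) : ℂ) * (ev (Z.B l) k z * y l) with hyt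
    -- transport of the values
    have htr : ∀ F, IsSecW u c Z d M F → eval (Sum.elim x' yt) (F i' z') =
        ((∏ j, t j ^ d j : ℂˣ) : ℂ) * ev M k z * eval (Sum.elim x y) (F i z) := by
      intro F hF
      subst hs
      subst ht
      subst hφ
      have h1 := hF.eq k z hzk x y
      have h2 := eval_act (Z := Z) (hF.deg (X.t k) (X.φ k z) hz') ht1
        (fun l => ev (c l) k z * x l) fun l => ev (Z.B l) k z * y l
      have h3 : x' = fun l => (t l : ℂ) * (ev (c l) k z * x l) := funext ht2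
      rw [h3, hyt, h2, h1]
      ring
    obtain ⟨F, hF, hF0⟩ := h0.gg i' z' hz' x' hx'
    obtain ⟨G, hG, hG0⟩ := hl l i' z' hz' x' hx'
    have hc := comb_sec (pull_sec (Z := Z) hF) (hyl l G hG) (yt l * eval x' (G i' z'))
      (eval x' (F i' z'))
    have hv : ∀ v : Fin s → ℂ, eval (Sum.elim x' v) (C (yt l * eval x' (G i' z')) *
        rename Sum.inl (F i' z') - C (eval x' (F i' z')) *
          (MvPolynomial.X (Sum.inr l) * rename Sum.inl (G i' z'))) =
        eval x' (F i' z') * eval x' (G i' z') * (yt l - v l) := fun v => by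
      simp only [map_sub, map_mul, eval_C, eval_X, eval_pull, Sum.elim_inr]
      ring
    have h4 := htr _ hc
    rw [hv yt, sub_self, mul_zero] at h4
    have h5 : ((∏ j, t j ^ d j : ℂˣ) : ℂ) * ev M k z ≠ 0 := mul_ne_zero (Units.ne_zero _) (ev_ne _ _ _)
    have h6 := H _ hc ((mul_eq_zero.1 h4.symm).resolve_left h5)
    rw [hv y'] at h6
    have h7 := (mul_eq_zero.1 h6).resolve_left (mul_ne_zero hF0 hG0)
    exact (sub_eq_zero.1 h7).symm
  · rintro i z x y ⟨hz, hx, -⟩ w ξ η - H
    obtain ⟨hw, τ, hτ1, hτ2⟩ := h0.tan i z hz x hx w ξ fun F hF hF0 => by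
      have h1 := H _ (pull_sec (Z := Z) hF) (by rwa [eval_pull])
      rw [dW] at h1
      simp only [eval_pull] at h1
      exact h1
    refine ⟨hw, τ, hτ1, hτ2, fun l => ?_⟩
    subst hw
    obtain ⟨F, hF, hF0⟩ := h0.gg i z hz x hx
    obtain ⟨G, hG, hG0⟩ := hl l i z hz x hx
    have hc := comb_sec (pull_sec (Z := Z) hF) (hyl l G hG) (y l * eval x (G i z))
      (eval x (F i z))
    have h1 := H _ hc (by
      simp only [map_sub, map_mul, eval_C, eval_X, eval_pull, Sum.elim_inr]
      ring)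
    rw [dW] at h1
    simp only [map_sub, map_mul, eval_C, eval_X, eval_pull, Sum.elim_inr, smul_zero, add_zero,
      Pi.add_apply, Pi.smul_apply, smul_eq_mul] at h1
    have hdF := hasDerivAt_eval (F i z) x ξ
    have hdG := hasDerivAt_eval (G i z) x ξ
    have hy : HasDerivAt (fun τ : ℂ => y l + τ * η l) (η l) 0 := by
      have h3 := ((hasDerivAt_id (0 : ℂ)).mul_const (η l)).const_add (y l)
      rwa [one_mul] at h3
    have h2 := (hdF.const_mul (y l * eval x (G i z))).fun_sub
      ((hy.fun_mul hdG).const_mul (eval x (F i z)))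
    rw [h2.deriv] at h1
    have e1 : ∑ l, ξ l * eval x (pderiv l (F i z)) = (∑ j, τ j * d j) * eval x (F i z) := by
      rw [← euler (hF.deg i z hz) hτ1 x]
      exact Finset.sum_congr rfl fun l _ => by rw [hτ2 l]
    have e2 : ∑ l, ξ l * eval x (pderiv l (G i z)) =
        (∑ j, τ j * ((d j - Z.b l j : ℤ) : ℂ)) * eval x (G i z) := by
      rw [← euler (hG.deg i z hz) hτ1 x]
      exact Finset.sum_congr rfl fun l _ => by rw [hτ2 l]
    rw [e1, e2] at h1
    simp only [zero_smul, add_zero, zero_mul] at h1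
    have e3 : ∑ j, τ j * ((d j - Z.b l j : ℤ) : ℂ) = ∑ j, τ j * (d j : ℂ) -
        ∑ j, τ j * (Z.b l j : ℂ) := by
      rw [← Finset.sum_sub_distrib]
      refine Finset.sum_congr rfl fun j _ => ?_
      push_cast
      ring
    rw [e3] at h1
    refine mul_left_cancel₀ (mul_ne_zero hF0 hG0) ?_
    linear_combination -h1

end Pool.Agent.Zk74.FV
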