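import Pool.Agent.Zk74.FV.Defs
import Pool.Agent.Q47.FJ.Red

/-!
# Products of sections on toric bundles
-/

set_option autoImplicit false

namespace Pool.Agent.Zk74.FV

open MvPolynomial Q47.TB Q47.FJ

variable {E : Type*} [NormedAddCommGroup E] [NormedSpace ℂ E] {I K : Type*} {X : Atlas E I K}
  {ι : Type*} [Fintype ι] {n : ℕ} {u : ι → Fin n → ℤ} {S : Set (Set ι)} {c : ι → LB X}

/-- There are finitely many effective divisors in a class. -/
theorem finite_class (hS : IsSmoothFan u S) (d : ι → ℤ) :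
    {α : ι →₀ ℕ | LinEquiv u (fun j => (α j : ℤ)) d}.Finite := by
  classical
  -- lower bounds for `m · w`
  have hlow : ∀ w : Fin n → ℤ, ∃ C : ℤ, ∀ m : Fin n → ℤ,
      (∀ i, 0 ≤ d i + ∑ k, m k * u i k) → C ≤ ∑ k, m k * w k := by
    intro w
    obtain ⟨a, ⟨-, ha⟩, -⟩ := hS.rep w
    refine ⟨-∑ i, (a i : ℤ) * d i, fun m hm => ?_⟩
    have h1 : ∑ k, m k * w k = ∑ i, (a i : ℤ) * ∑ k, m k * u i k := by
      simp_rw [Finset.mul_sum]
      rw [Finset.sum_comm]
      refine Finset.sum_congr rfl fun k _ => ?_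
      rw [← ha k, Finset.mul_sum]
      exact Finset.sum_congr rfl fun i _ => by ring
    rw [h1, ← sub_nonneg, sub_neg_eq_add, ← Finset.sum_add_distrib]
    refine Finset.sum_nonneg fun i _ => ?_
    rw [← mul_add]
    refine mul_nonneg (Int.natCast_nonneg _) ?_
    have := hm i
    linarith
  choose Cp hCp using hlow
  set T : Set (Fin n → ℤ) := Set.pi Set.univ fun k =>
    Set.Icc (Cp (Pi.single k 1)) (-Cp (-Pi.single k 1)) with hT
  have hTf : T.Finite := Set.Finite.pi fun k => Set.finite_Icc _ _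
  have hsub : {α : ι →₀ ℕ | LinEquiv u (fun j => (α j : ℤ)) d} ⊆
      (fun m : Fin n → ℤ => (Finsupp.equivFunOnFinite.symm
        fun i => (d i + ∑ k, m k * u i k).toNat : ι →₀ ℕ)) '' T := by
    rintro α ⟨m, hm⟩
    have h0 : ∀ i, 0 ≤ d i + ∑ k, m k * u i k := fun i => by
      rw [← hm i]
      exact Int.natCast_nonneg _
    refine ⟨m, ?_, ?_⟩
    · intro k _
      have h1 := hCp (Pi.single k 1) m h0
      have h2 := hCp (-Pi.single k 1) m h0
      have e1 : ∑ j, m j * (Pi.single k 1 : Fin n → ℤ) j = m k := by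
        rw [Finset.sum_eq_single k]
        · rw [Pi.single_eq_same, mul_one]
        · intro j _ hj
          rw [Pi.single_eq_of_ne hj, mul_zero]
        · exact fun h => absurd (Finset.mem_univ k) h
      have e2 : ∑ j, m j * (-Pi.single k 1 : Fin n → ℤ) j = -m k := by
        simp only [Pi.neg_apply, mul_neg, Finset.sum_neg_distrib]
        rw [e1]
      rw [e1] at h1
      rw [e2] at h2
      exact ⟨h1, by linarith⟩
    · ext i
      simp only [Finsupp.equivFunOnFinite_symm_apply_apply]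
      have := hm i
      simp only at this
      rw [← this, Int.toNat_natCast]
  exact (hTf.image _).subset hsub

/-- A section as a finite sum. -/
theorem eval_sec {d : ι → ℤ} {M : LB X} {F : I → E → MvPolynomial ι ℂ} (hF : IsSecY u c d M F)
    {A : Finset (ι →₀ ℕ)} (hA : ∀ α : ι →₀ ℕ, LinEquiv u (fun j => (α j : ℤ)) d → α ∈ A) {i : I}
    {z : E} (hz : z ∈ X.U i) (x : ι → ℂ) :
    eval x (F i z) = ∑ α ∈ A, coeff α (F i z) * ∏ j, x j ^ α j := by
  rw [eval_eq']
  refine Finset.sum_subset (fun α hα => hA α (hF.deg i z hz α hα)) fun α _ hα => ?_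
  rw [notMem_support_iff.1 hα, zero_mul]

theorem diff_sec (hS : IsSmoothFan u S) {d : ι → ℤ} {M : LB X} {F : I → E → MvPolynomial ι ℂ}
    (hF : IsSecY u c d M F) {i : I} {z : E} (hz : z ∈ X.U i) (x ξ : ι → ℂ) (w : E) :
    DifferentiableAt ℂ (fun τ : ℂ => eval (x + τ • ξ) (F i (z + τ • w))) 0 := by
  set A := (finite_class hS d).toFinset with hA
  have hA' : ∀ α : ι →₀ ℕ, LinEquiv u (fun j => (α j : ℤ)) d → α ∈ A := fun α hα =>
    (finite_class hS d).mem_toFinset.2 hα
  have h2 : HasDerivAt (fun τ : ℂ => z + τ • w) w 0 := by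
    have h3 := ((hasDerivAt_id (0 : ℂ)).smul_const w).const_add z
    rwa [one_smul] at h3
  have h7 : ∀ᶠ τ in nhds (0 : ℂ), z + τ • w ∈ X.U i := by
    refine h2.continuousAt.eventually_mem ((X.isOpen_U i).mem_nhds ?_)
    rwa [zero_smul, add_zero]
  have h8 : DifferentiableAt ℂ (fun τ : ℂ => ∑ α ∈ A, coeff α (F i (z + τ • w)) *
      ∏ j, (x + τ • ξ) j ^ α j) 0 := by
    refine DifferentiableAt.fun_sum fun α _ => DifferentiableAt.mul ?_ ?_
    · have h4 : DifferentiableAt ℂ (fun z => coeff α (F i z)) (z + (0 : ℂ) • w) := by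
        rw [zero_smul, add_zero]
        exact (hF.holo i α).differentiableAt ((X.isOpen_U i).mem_nhds hz)
      exact DifferentiableAt.comp (0 : ℂ) h4 h2.differentiableAt
    · refine DifferentiableAt.fun_finset_prod fun j _ => ?_
      refine DifferentiableAt.pow ?_ _
      simp only [Pi.add_apply, Pi.smul_apply, smul_eq_mul]
      exact (differentiableAt_id.mul_const _).const_add _
  refine h8.congr_of_eventuallyEq ?_
  filter_upwards [h7] with τ hτ
  exact eval_sec hF hA' hτ _

omit [Fintype ι] in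
theorem linEquiv_add {α β d e : ι → ℤ} (h : LinEquiv u α d) (h' : LinEquiv u β e) :
    LinEquiv u (fun j => α j + β j) fun j => d j + e j := by
  obtain ⟨m, hm⟩ := h
  obtain ⟨m', hm'⟩ := h'
  refine ⟨fun k => m k + m' k, fun i => ?_⟩
  beta_reduce
  rw [hm, hm']
  simp only [add_mul, Finset.sum_add_distrib]
  ring

theorem mul_sec {d e : ι → ℤ} {M N : LB X} {F G : I → E → MvPolynomial ι ℂ}
    (hF : IsSecY u c d M F) (hG : IsSecY u c e N G) :
    IsSecY u c (fun j => d j + e j) (M * N) fun i z => F i z * G i z where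
  holo i α := by
    classical
    simp only [coeff_mul]
    exact DifferentiableOn.fun_sum fun p _ => (hF.holo i p.1).mul (hG.holo i p.2)
  deg i z hz α hα := by
    classical
    obtain ⟨β, hβ, γ, hγ, h⟩ := Finset.mem_add.1 (support_mul _ _ hα)
    have h1 := linEquiv_add (hF.deg i z hz β hβ) (hG.deg i z hz γ hγ)
    rw [← h]
    simpa using h1
  eq k z hz x := by
    simp only [map_mul]
    rw [hF.eq k z hz x, hG.eq k z hz x, ev_mul]
    ring

theorem one_sec : IsSecY u c (fun _ => 0) (1 : LB X) fun _ _ => 1 where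
  holo i α := by
    classical
    simp only [coeff_one]
    exact differentiableOn_const _
  deg i z _ α hα := by
    classical
    have h1 : α = 0 := by
      have h2 := support_monomial_subset (show α ∈ (monomial 0 (1 : ℂ)).support from hα)
      simpa using h2
    rw [h1]
    exact ⟨fun _ => 0, fun i => by simp⟩
  eq k z _ x := by simp [ev_one]

theorem gg_one : GGY u S c (fun _ => 0) (1 : LB X) := fun _ _ _ _ _ =>
  ⟨_, one_sec, by simp⟩

theorem gg_mul {d e : ι → ℤ} {M N : LB X} (h : GGY u S c d M) (h' : GGY u S c e N) :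
    GGY u S c (fun j => d j + e j) (M * N) := fun i z hz x hx => by
  obtain ⟨F, hF, hF0⟩ := h i z hz x hx
  obtain ⟨G, hG, hG0⟩ := h' i z hz x hx
  exact ⟨_, mul_sec hF hG, by rw [map_mul]; exact mul_ne_zero hF0 hG0⟩

theorem gg_pow {d : ι → ℤ} {M : LB X} (h : GGY u S c d M) (m : ℕ) :
    GGY u S c (fun j => m * d j) (M ^ m) := by
  induction m with
  | zero =>
    have h1 : (fun j => ((0 : ℕ) : ℤ) * d j) = fun _ => 0 := by
      funext j
      simp
    rw [h1, pow_zero]
    exact gg_one
  | succ m ih =>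
    have h1 : (fun j => ((m + 1 : ℕ) : ℤ) * d j) = fun j => m * d j + d j := by
      funext j
      push_cast
      ring
    rw [h1, pow_succ]
    exact gg_mul ih h

theorem va_mul (hS : IsSmoothFan u S) {d e : ι → ℤ} {M N : LB X} (h : VAY u S c d M)
    (h' : GGY u S c e N) : VAY u S c (fun j => d j + e j) (M * N) where
  gg := gg_mul h.gg h'
  pts i z hz x hx i' z' hz' x' hx' H := by
    refine h.pts i z hz x hx i' z' hz' x' hx' fun F hF hF0 => ?_
    obtain ⟨G, hG, hG0⟩ := h' i' z' hz' x' hx'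
    have h1 := H _ (mul_sec hF hG) (by rw [map_mul, hF0, zero_mul])
    rw [map_mul] at h1
    exact (mul_eq_zero.1 h1).resolve_right hG0
  tan i z hz x hx w ξ H := by
    refine h.tan i z hz x hx w ξ fun F hF hF0 => ?_
    obtain ⟨G, hG, hG0⟩ := h' i z hz x hx
    have h1 := H _ (mul_sec hF hG) (by rw [map_mul, hF0, zero_mul])
    have h2 := (diff_sec hS hF hz x ξ w).hasDerivAt
    have h3 := (diff_sec hS hG hz x ξ w).hasDerivAt
    have h4 := h2.fun_mul h3
    rw [dY] at h1 ⊢
    simp only [map_mul] at h1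
    rw [h4.deriv] at h1
    simp only [zero_smul, add_zero] at h1
    rw [hF0, zero_mul, add_zero] at h1
    exact (mul_eq_zero.1 h1).resolve_right hG0

theorem va_pow (hS : IsSmoothFan u S) {d : ι → ℤ} {M : LB X} (h : VAY u S c d M) {m : ℕ}
    (hm : 1 ≤ m) : VAY u S c (fun j => m * d j) (M ^ m) := by
  obtain ⟨m, rfl⟩ := Nat.exists_eq_add_of_le hm
  have h1 := va_mul hS h (gg_pow h.gg m)
  have h2 : (fun j => ((1 + m : ℕ) : ℤ) * d j) = fun j => d j + m * d j := by
    funext j
    push_cast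
    ring
  rw [h2, pow_add, pow_one]
  exact h1

/-- The sum of an ample and a semiample line bundle is ample. -/
theorem ample_semi (hS : IsSmoothFan u S) {d e : ι → ℤ} {M N : LB X} (h : AmpleY u S c d M)
    (h' : SemiY u S c e N) : AmpleY u S c (fun j => d j + e j) (M * N) := by
  obtain ⟨a, ha, hM⟩ := h
  obtain ⟨b, hb, hN⟩ := h'
  refine ⟨a * b, Nat.mul_pos ha hb, ?_⟩
  have h1 := va_mul hS (va_pow hS hM hb) (gg_pow hN a)
  have h2 : (fun j => ((a * b : ℕ) : ℤ) * (d j + e j)) =
      fun j => (b : ℤ) * (a * d j) + a * (b * e j) := by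
    funext j
    push_cast
    ring
  rw [h2, mul_pow, pow_mul, mul_comm a b, pow_mul]
  exact h1

theorem semi_one : SemiY u S c (fun _ => 0) (1 : LB X) :=
  ⟨1, le_rfl, by simpa using gg_one (u := u) (S := S) (c := c)⟩

theorem semi_mul {d e : ι → ℤ} {M N : LB X} (h : SemiY u S c d M)
    (h' : SemiY u S c e N) : SemiY u S c (fun j => d j + e j) (M * N) := by
  obtain ⟨a, ha, hM⟩ := h
  obtain ⟨b, hb, hN⟩ := h'
  refine ⟨a * b, Nat.mul_pos ha hb, ?_⟩
  have h1 := gg_mul (gg_pow hM b) (gg_pow hN a)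
  have h2 : (fun j => ((a * b : ℕ) : ℤ) * (d j + e j)) =
      fun j => (b : ℤ) * (a * d j) + a * (b * e j) := by
    funext j
    push_cast
    ring
  rw [h2, mul_pow, pow_mul, mul_comm a b, pow_mul]
  exact h1

theorem semi_sum {J : Type*} (T : Finset J) {d : J → ι → ℤ} {M : J → LB X}
    (h : ∀ j ∈ T, SemiY u S c (d j) (M j)) :
    SemiY u S c (fun l => ∑ j ∈ T, d j l) (∏ j ∈ T, M j) := by
  classical
  induction T using Finset.induction_on with
  | empty =>
    simp only [Finset.sum_empty, Finset.prod_empty]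
    exact semi_one
  | insert j T hj ih =>
    simp only [Finset.sum_insert hj, Finset.prod_insert hj]
    exact semi_mul (h j (Finset.mem_insert_self _ _))
      (ih fun i hi => h i (Finset.mem_insert_of_mem hi))

end Pool.Agent.Zk74.FV
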